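import Pool.Agent.Helper17.RS.FING
import Pool.Agent.Helper25.RS.CNT
import Pool.Agent.Helper34.RS.SIEVE
import Pool.Agent.Helper58.RS.GEN
import Pool.Agent.Helper16.RK.HOM
import Pool.Agent.Helper16.RK.PAD
import Pool.Agent.Helper16.RK.LIN
import Pool.Agent.Helper16.RK.RANK
import Pool.Agent.Helper66.R7.CERTT
import Pool.Agent.Helper46.R7.BNDT
import Pool.Agent.Helper28.R7.SV7
import Pool.Agent.Helper76.R7.INJT
import Pool.Agent.Helper34.R7.MULTT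

set_option autoImplicit false

namespace Pool.Helper66.R7

open Pool.Helper17.RS (NR Box yy Cong fin_gen)

/-- Rank seven with the exponent `1/4 - ε`. -/
theorem rank_seven : ∀ ε : ℝ, 0 < ε → ∃ H₀ : ℝ, ∀ H : ℝ, H₀ ≤ H →
    H ^ ((1 : ℝ) / 4 - ε) ≤ (NR 7 H : ℝ) := by
  have hC : ST_CERTT := st_CERTT (Pool.Agent.Helper97.RK.st_RANK Pool.Agent.Helper97.RK.st_HOM
    Pool.Agent.Helper97.RK.st_PAD Pool.Agent.Helper97.RK.st_LIN)
  have hcong : ∀ t : Fin 3 → ℕ, Cong tb (yy tb t) := fun t i => ⟨(t i : ℤ), by simp [yy]⟩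
  refine fin_gen Pool.Helper17.RS.st_GEN Pool.Helper17.RS.st_CNT Pool.Helper17.RS.st_SIEVE 7 tb
    tA tB (fun t => ?_) ?_ (st_SV7 hC) (st_MULTT st_INJT hC st_BNDT)
  · obtain ⟨-, -, -, h1, h2, h3⟩ := hC (yy tb t) (hcong t)
    exact ⟨h1, h2, by exact_mod_cast h3⟩
  · obtain ⟨C, hC1, hB⟩ := st_BNDT
    exact ⟨C, hC1, fun N hN t ht => (hB N hN t ht).2⟩

end Pool.Helper66.R7
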